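import Mathlib

/-!
Deterministic branching programs and their composition.
-/

set_option autoImplicit false

namespace Pool.Agent.TH754.CV

/-- A deterministic branching program over the variables `σ` with the nodes `V`. A node `v` with
`out v = some b` is an output node with the output `b`. At any other node the program reads the
variable `qry v` (no variable, and the bit `false`, if `qry v = none`) and moves to the node
`nxt v b`, where `b` is the bit read. -/
structure BP (σ V : Type) where
  out : V → Option Bool
  qry : V → Option σ
  nxt : V → Bool → V

variable {σ τ V W : Type}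

/-- The bit read at the node `v`. -/
def BP.rd (P : BP σ V) (x : σ → Bool) (v : V) : Bool := ((P.qry v).map x).getD false

/-- On the input `x` the program started at the node `v` reaches an output node, with the
output `b`. -/
inductive Ev (P : BP σ V) (x : σ → Bool) : V → Bool → Prop
  | done {v : V} {b : Bool} (h : P.out v = some b) : Ev P x v b
  | step {v : V} {b : Bool} (h : P.out v = none) (h' : Ev P x (P.nxt v (P.rd x v)) b) : Ev P x v b

/-- The Boolean function `f` of the variables `σ` is computed by a deterministic branching program
with `S` nodes. -/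
def Has (σ : Type) (S : ℕ) (f : (σ → Bool) → Bool) : Prop :=
  ∃ (P : BP σ (Fin S)) (v : Fin S), ∀ x, Ev P x v (f x)

theorem has_of_card [Fintype V] {S : ℕ} (P : BP σ V) (v0 : V) {f : (σ → Bool) → Bool}
    (h : ∀ x, Ev P x v0 (f x)) (hc : Fintype.card V ≤ S) : Has σ S f := by
  classical
  obtain ⟨e⟩ : Nonempty (V ↪ Fin S) := Function.Embedding.nonempty_of_card_le (by simpa using hc)
  have : Nonempty V := ⟨v0⟩
  have hinv : ∀ v, Function.invFun e (e v) = v := Function.leftInverse_invFun e.injective
  refine ⟨⟨fun s => P.out (Function.invFun e s), fun s => P.qry (Function.invFun e s),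
    fun s b => e (P.nxt (Function.invFun e s) b)⟩, e v0, fun x => ?_⟩
  have key : ∀ v b, Ev P x v b → Ev (σ := σ) (V := Fin S)
      ⟨fun s => P.out (Function.invFun e s), fun s => P.qry (Function.invFun e s),
        fun s b => e (P.nxt (Function.invFun e s) b)⟩ x (e v) b := by
    intro v b hv
    induction hv with
    | done h => exact Ev.done (by simpa [hinv] using h)
    | step h h' ih =>
      refine Ev.step (by simpa [hinv] using h) ?_
      simpa [BP.rd, hinv] using ih
  exact key _ _ (h x)

theorem Has.mono {S S' : ℕ} {f : (σ → Bool) → Bool} (h : Has σ S f) (hS : S ≤ S') :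
    Has σ S' f := by
  obtain ⟨P, v, hP⟩ := h
  exact has_of_card P v hP (by simpa using hS)

/-- Start of the subprogram at the node `v`. -/
def st (P : BP τ V) (q0 : τ → W) (w0 : W) (v : V) : V × W :=
  (v, match P.qry v with
    | none => w0
    | some i => q0 i)

/-- The variables of `P` are computed by subprograms. -/
def comp (P : BP τ V) (Q : τ → BP σ W) (q0 : τ → W) (w0 : W) : BP σ (V × W) where
  out p := P.out p.1
  qry p := match P.qry p.1 with
    | none => none
    | some i => match (Q i).out p.2 with
      | some _ => none
      | none => (Q i).qry p.2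
  nxt p b := match P.qry p.1 with
    | none => st P q0 w0 (P.nxt p.1 false)
    | some i => match (Q i).out p.2 with
      | some b' => st P q0 w0 (P.nxt p.1 b')
      | none => (p.1, (Q i).nxt p.2 b)

theorem comp_ev (P : BP τ V) (Q : τ → BP σ W) (q0 : τ → W) (w0 : W) (x : σ → Bool)
    (y : τ → Bool) (hy : ∀ i, Ev (Q i) x (q0 i) (y i)) {v : V} {b : Bool} (h : Ev P y v b) :
    Ev (comp P Q q0 w0) x (st P q0 w0 v) b := by
  induction h with
  | done h => exact Ev.done (by simpa [comp, st] using h)
  | @step v b h h' ih =>
    rcases hq : P.qry v with _ | i
    · refine Ev.step (by simpa [comp, st] using h) ?_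
      have h1 : P.rd y v = false := by simp [BP.rd, hq]
      rw [h1] at ih
      simpa [comp, st, hq] using ih
    · have h1 : P.rd y v = y i := by simp [BP.rd, hq]
      rw [h1] at ih
      have key : ∀ w c, Ev (Q i) x w c → Ev (comp P Q q0 w0) x (st P q0 w0 (P.nxt v c)) b →
          Ev (comp P Q q0 w0) x (v, w) b := by
        intro w c hw
        induction hw with
        | @done w c hc =>
          intro h3
          refine Ev.step (by simpa [comp] using h) ?_
          simpa [comp, hq, hc] using h3
        | @step w c hc hc' ih2 =>
          intro h3
          refine Ev.step (by simpa [comp] using h) ?_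
          have h4 : (comp P Q q0 w0).rd x (v, w) = (Q i).rd x w := by
            simp [BP.rd, comp, hq, hc]
          rw [h4]
          simpa [comp, hq, hc] using ih2 h3
      have h5 : st P q0 w0 v = (v, q0 i) := by simp [st, hq]
      rw [h5]
      exact key _ _ (hy i) ih

theorem has_comp [Fintype V] {S : ℕ} (hS : 0 < S) (P : BP τ V) (v0 : V)
    (Q : τ → (σ → Bool) → Bool) (hQ : ∀ i, Has σ S (Q i)) {f : (σ → Bool) → Bool}
    (h : ∀ x, Ev P (fun i => Q i x) v0 (f x)) : Has σ (Fintype.card V * S) f := by
  choose R q0 hR using hQ
  refine has_of_card (comp P R q0 ⟨0, hS⟩) (st P q0 ⟨0, hS⟩ v0) (fun x => ?_) (by simp)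
  exact comp_ev P R q0 _ x _ (fun i => hR i x) (h x)

/-- AND (`e = false`) or OR (`e = true`). -/
def op (e a b : Bool) : Bool := if e then a || b else a && b

theorem op_short (e b : Bool) : op e e b = e := by cases e <;> simp [op]

theorem op_long (e b : Bool) : op e (!e) b = b := by cases e <;> simp [op]

theorem op_comm (e a b : Bool) : op e a b = op e b a := by
  cases e <;> simp [op, Bool.and_comm, Bool.or_comm]

theorem has_var (i : σ) : Has σ 3 (fun x => x i) := by
  refine has_of_card (V := Option Bool) ⟨fun v => v, fun _ => some i, fun _ b => some b⟩ none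
    (fun x => Ev.step rfl (Ev.done (by simp [BP.rd]))) (by simp)

theorem has_const (b : Bool) : Has σ 1 (fun _ => b) :=
  has_of_card (V := Unit) ⟨fun _ => some b, fun _ => none, fun _ _ => ()⟩ ()
    (fun _ => Ev.done rfl) (by simp)

theorem has_op {S : ℕ} (hS : 0 < S) (e : Bool) {f g : (σ → Bool) → Bool} (hf : Has σ S f)
    (hg : Has σ S g) : Has σ (4 * S) (fun x => op e (f x) (g x)) := by
  have h := has_comp (σ := σ) (τ := Bool) (V := Bool ⊕ Bool) hS
    ⟨fun v => match v with
      | .inl _ => none
      | .inr b => some b, fun v => match v with
      | .inl c => some c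
      | .inr _ => none, fun v b => match v with
      | .inl false => if b = e then .inr b else .inl true
      | .inl true => .inr b
      | .inr b' => .inr b'⟩ (.inl false)
    (fun c => if c then g else f) (by intro c; cases c <;> simpa)
    (f := fun x => op e (f x) (g x)) (by
      intro x
      refine Ev.step rfl ?_
      simp only [BP.rd, Option.map_some, Option.getD_some]
      by_cases hfe : f x = e
      · simp only [Bool.false_eq_true, if_false, hfe, if_true, op_short]
        exact Ev.done rfl
      · have h1 : f x = !e := by
          revert hfe; cases f x <;> cases e <;> simp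
        simp only [Bool.false_eq_true, if_false, if_neg hfe]
        rw [h1, op_long]
        refine Ev.step rfl ?_
        simp only [BP.rd, Option.map_some, Option.getD_some, if_true]
        exact Ev.done rfl)
  simpa using h

end Pool.Agent.TH754.CV
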