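import Pool.Agent.TH754.CV.Bp

/-!
Comparator circuits, their Strahler number, and the walk which evaluates an arc when the arcs with
smaller Strahler number are known.
-/

set_option autoImplicit false

namespace Pool.Agent.TH754.CV

variable {σ : Type} {m : ℕ}

/-- A comparator circuit with the comparators `0, …, m - 1` in a topological order. The comparator
`t` has the two incoming arcs `inp t false` and `inp t true` (their order does not matter): an
incoming arc comes from a source, labelled by an element of `σ`, or is one of the two outgoing arcs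
of an earlier comparator `s`, namely `(s, false)`, which carries the AND, or `(s, true)`, which
carries the OR. No outgoing arc is used twice; those which are not used end in sinks. -/
structure Circ (σ : Type) (m : ℕ) where
  inp : Fin m → Bool → σ ⊕ (Fin m × Bool)
  lt : ∀ {t : Fin m} {c : Bool} {s : Fin m} {e : Bool}, inp t c = .inr (s, e) → s < t
  inj : ∀ {t t' : Fin m} {c c' : Bool} {a : Fin m × Bool},
    inp t c = .inr a → inp t' c' = .inr a → t = t' ∧ c = c'

/-- The bit carried by the outgoing arc `(t, e)` when the sources carry the bits `x`. -/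
def Circ.val (C : Circ σ m) (x : σ → Bool) (t : Fin m) (e : Bool) : Bool :=
  op e
    (match h : C.inp t false with
      | .inl i => x i
      | .inr (s, e') =>
        have := C.lt h
        C.val x s e')
    (match h : C.inp t true with
      | .inl i => x i
      | .inr (s, e') =>
        have := C.lt h
        C.val x s e')
termination_by t.val

/-- One of the incoming arcs of the comparator comes from a source. -/
def Circ.Skew (C : Circ σ m) (t : Fin m) : Prop := ∃ c i, C.inp t c = .inl i

/-- One of the two outgoing arcs of the comparator is not used. -/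
def Circ.Cut (C : Circ σ m) (t : Fin m) : Prop := ∃ e, ∀ t' c, C.inp t' c ≠ .inr (t, e)

/-- Both incoming arcs come from comparators and both outgoing arcs go to comparators. -/
def Circ.Inner (C : Circ σ m) (t : Fin m) : Prop := ¬ C.Skew t ∧ ¬ C.Cut t

open Classical in
/-- The Strahler number of the outgoing arcs of a comparator with incoming arcs with the Strahler
numbers `p` and `q`. -/
noncomputable def rule (cut : Prop) (p q : ℕ) : ℕ :=
  if cut then max (max p q) 1 else if p = q then p + 1 else max p q

/-- The Strahler number of a comparator (and of its outgoing arcs). Arcs from sources have the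
number `0`. If the incoming arcs have the numbers `p` and `q`, then the number of the comparator is
`max p q` if `p ≠ q`, it is `p + 1` if `p = q`, and it is `max p q 1` (so that equal positive
numbers are not increased) if one of the outgoing arcs is not used. -/
noncomputable def Circ.str (C : Circ σ m) (t : Fin m) : ℕ :=
  rule (C.Cut t)
    (match h : C.inp t false with
      | .inl _ => 0
      | .inr (s, _) =>
        have := C.lt h
        C.str s)
    (match h : C.inp t true with
      | .inl _ => 0
      | .inr (s, _) =>
        have := C.lt h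
        C.str s)
termination_by t.val

/-- The bit carried by an arc. -/
def Circ.av (C : Circ σ m) (x : σ → Bool) (a : σ ⊕ (Fin m × Bool)) : Bool :=
  match a with
  | .inl i => x i
  | .inr b => C.val x b.1 b.2

theorem Circ.val_eq (C : Circ σ m) (x : σ → Bool) (t : Fin m) (e : Bool) :
    C.val x t e = op e (C.av x (C.inp t false)) (C.av x (C.inp t true)) := by
  rw [Circ.val]
  congr 1
  · split <;> rename_i h <;> simp [Circ.av, h]
  · split <;> rename_i h <;> simp [Circ.av, h]

theorem Circ.val_eq' (C : Circ σ m) (x : σ → Bool) (t : Fin m) (e c : Bool) :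
    C.val x t e = op e (C.av x (C.inp t c)) (C.av x (C.inp t !c)) := by
  cases c
  · exact C.val_eq x t e
  · rw [C.val_eq, op_comm]; rfl

/-- The Strahler number of an arc. -/
noncomputable def Circ.ad (C : Circ σ m) (a : σ ⊕ (Fin m × Bool)) : ℕ :=
  match a with
  | .inl _ => 0
  | .inr b => C.str b.1

theorem Circ.str_eq (C : Circ σ m) (t : Fin m) :
    C.str t = rule (C.Cut t) (C.ad (C.inp t false)) (C.ad (C.inp t true)) := by
  rw [Circ.str]
  congr 1
  · split <;> rename_i h <;> simp [Circ.ad, h]
  · split <;> rename_i h <;> simp [Circ.ad, h]

theorem rule_le (cut : Prop) (p q : ℕ) : p ≤ rule cut p q ∧ q ≤ rule cut p q ∧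
    1 ≤ rule cut p q := by
  unfold rule
  split
  · omega
  · split
    · omega
    · omega

theorem Circ.ad_le (C : Circ σ m) (t : Fin m) (c : Bool) : C.ad (C.inp t c) ≤ C.str t := by
  rw [C.str_eq]
  cases c
  · exact (rule_le _ _ _).1
  · exact (rule_le _ _ _).2.1

theorem Circ.str_pos (C : Circ σ m) (t : Fin m) : 1 ≤ C.str t := by
  rw [C.str_eq]
  exact (rule_le _ _ _).2.2

open Classical in
/-- The output of a comparator with an unused output which may be used. -/
noncomputable def live (C : Circ σ m) (t : Fin m) : Bool :=
  if ∀ t' c, C.inp t' c ≠ .inr (t, false) then true else false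

/-- The arcs which are evaluated by the walk. -/
def Circ.Ok (C : Circ σ m) (a : Fin m × Bool) : Prop := C.Cut a.1 → a.2 = live C a.1

theorem Circ.ok_of_used (C : Circ σ m) {t : Fin m} {c : Bool} {a : Fin m × Bool}
    (h : C.inp t c = .inr a) : C.Ok a := by
  obtain ⟨s, e⟩ := a
  intro hc
  unfold live
  cases e
  · rw [if_neg]
    intro h'
    exact h' t c h
  · obtain ⟨e', he'⟩ := hc
    cases e'
    · rw [if_pos he']
    · exact absurd h (he' t c)

open Classical in
/-- The comparator which uses an arc. -/
noncomputable def user (C : Circ σ m) (a : Fin m × Bool) : Option (Fin m × Bool) :=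
  if h : ∃ tc : Fin m × Bool, C.inp tc.1 tc.2 = .inr a then some h.choose else none

theorem user_eq (C : Circ σ m) {t : Fin m} {c : Bool} {a : Fin m × Bool}
    (h : C.inp t c = .inr a) : user C a = some (t, c) := by
  have h' : ∃ tc : Fin m × Bool, C.inp tc.1 tc.2 = .inr a := ⟨(t, c), h⟩
  unfold user
  rw [dif_pos h']
  obtain ⟨h1, h2⟩ := C.inj h'.choose_spec h
  rw [Option.some_inj]
  exact Prod.ext h1 h2

/-- One of the incoming arcs has a Strahler number smaller than `q`. -/
def sk (C : Circ σ m) (q : ℕ) (t : Fin m) : Prop := ∃ c, C.ad (C.inp t c) < q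

open Classical in
/-- The side of an incoming arc with small Strahler number. -/
noncomputable def sc (C : Circ σ m) (q : ℕ) (t : Fin m) : Bool :=
  if C.ad (C.inp t false) < q then false else true

theorem sc_spec (C : Circ σ m) {q : ℕ} {t : Fin m} (h : sk C q t) :
    C.ad (C.inp t (sc C q t)) < q := by
  unfold sc
  split
  · assumption
  · obtain ⟨c, h⟩ := h
    cases c
    · rename_i h'
      exact absurd h h'
    · exact h

/-- The nodes of the walk: `(a, none)` (find the value of the arc `a`), `(a, some none)` (an
incoming arc is read and the result is the value of `a`) and `(a, some (some v))` (the arc `a` has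
the value `v`). -/
abbrev Nd (m : ℕ) := (Fin m × Bool) × Option (Option Bool)

open Classical in
/-- The walk which evaluates the arc `r` with Strahler number `q`; it reads arcs with smaller
Strahler number. -/
noncomputable def walk (C : Circ σ m) (q : ℕ) (r : Fin m × Bool) :
    BP (σ ⊕ (Fin m × Bool)) (Nd m) where
  out p := match p.2 with
    | some (some v) => if p.1 = r then some v else none
    | _ => none
  qry p := match p.2 with
    | none => if sk C q p.1.1 then some (C.inp p.1.1 (sc C q p.1.1)) else none
    | some none => some (C.inp p.1.1 (!(sc C q p.1.1)))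
    | some (some _) => match user C p.1 with
      | some tc => if sk C q tc.1 then some (C.inp tc.1 (sc C q tc.1)) else none
      | none => none
  nxt p b := match p.2 with
    | none => if sk C q p.1.1 then
          (if b = p.1.2 then (p.1, some (some b))
          else if C.ad (C.inp p.1.1 (!(sc C q p.1.1))) < q then (p.1, some none)
          else match C.inp p.1.1 (!(sc C q p.1.1)) with
            | .inl _ => p
            | .inr a => (a, none))
        else
          (match C.inp p.1.1 false with
            | .inl _ => p
            | .inr a => (a, none))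
    | some none => (p.1, some (some b))
    | some (some v) => match user C p.1 with
      | none => p
      | some tc => if sk C q tc.1 then ((tc.1, !b), some (some v))
          else if tc.2 = true then ((tc.1, live C tc.1), some (some v))
          else if v = live C tc.1 then ((tc.1, live C tc.1), some (some v))
          else match C.inp tc.1 true with
            | .inl _ => p
            | .inr a => (a, none)

theorem walk_qry (C : Circ σ m) (q : ℕ) (r : Fin m × Bool) (v : Nd m)
    (i : σ ⊕ (Fin m × Bool)) (h : (walk C q r).qry v = some i) : ∃ t c, C.inp t c = i := by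
  obtain ⟨a, w⟩ := v
  rcases w with _ | _ | v
  · simp only [walk] at h
    split at h
    · exact ⟨_, _, Option.some_inj.1 h⟩
    · simp at h
  · simp only [walk] at h
    exact ⟨_, _, Option.some_inj.1 h⟩
  · simp only [walk] at h
    split at h
    · split at h
      · exact ⟨_, _, Option.some_inj.1 h⟩
      · simp at h
    · simp at h

/-- The program goes from `v` to `w` without meeting an output node before `w`. -/
def Go {V τ : Type} (P : BP τ V) (x : τ → Bool) (v w : V) : Prop :=
  Relation.ReflTransGen (fun v w => P.out v = none ∧ P.nxt v (P.rd x v) = w) v w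

theorem Go.ev {V τ : Type} {P : BP τ V} {x : τ → Bool} {v w : V} {b : Bool} (h : Go P x v w)
    (hw : Ev P x w b) : Ev P x v b := by
  induction h using Relation.ReflTransGen.head_induction_on with
  | refl => exact hw
  | head h1 _ ih => exact Ev.step h1.1 (h1.2 ▸ ih)

theorem Go.one {V τ : Type} {P : BP τ V} {x : τ → Bool} {v w : V} (h1 : P.out v = none)
    (h2 : P.nxt v (P.rd x v) = w) : Go P x v w := Relation.ReflTransGen.single ⟨h1, h2⟩

theorem Go.trans {V τ : Type} {P : BP τ V} {x : τ → Bool} {u v w : V} (h1 : Go P x u v)
    (h2 : Go P x v w) : Go P x u w := Relation.ReflTransGen.trans h1 h2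

theorem walk_go (C : Circ σ m) (q : ℕ) (hq : 1 ≤ q) (r : Fin m × Bool) (x : σ → Bool)
    (y : σ ⊕ (Fin m × Bool) → Bool)
    (hy : ∀ t c, C.ad (C.inp t c) < q → y (C.inp t c) = C.av x (C.inp t c)) :
    ∀ (n : ℕ) (a : Fin m × Bool), (a.1 : ℕ) = n → (a = r ∨ a.1 < r.1) → C.Ok a →
      C.str a.1 = q →
      Go (walk C q r) y (a, none) (a, some (some (C.val x a.1 a.2))) := by
  intro n
  induction n using Nat.strong_induction_on with
  | _ n ih =>
  rintro ⟨s, e⟩ hn hr hok hd
  simp only at hn hd ⊢
  have hr' : ∀ s' : Fin m, s' < s → s' < r.1 := by
    intro s' hs'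
    rcases hr with h | h
    · rw [← h]; exact hs'
    · exact lt_trans hs' h
  have hne : ∀ (s' : Fin m) (e' v : Bool), s' < s →
      (walk C q r).out ((s', e'), some (some v)) = none := by
    intro s' e' v hs'
    have h1 := hr' s' hs'
    have h2 : ((s', e') : Fin m × Bool) ≠ r := by
      intro h; rw [← h] at h1; exact lt_irrefl _ h1
    simp [walk, h2]
  have hdn : ∀ c a, C.inp s c = .inr a → ¬ C.ad (C.inp s c) < q →
      Go (walk C q r) y (a, none) (a, some (some (C.val x a.1 a.2))) := by
    intro c a ha hnk
    have h1 : a.1 < s := C.lt (show C.inp s c = .inr (a.1, a.2) from ha)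
    refine ih a.1 (by rw [← hn]; exact h1) a rfl (Or.inr (hr' _ h1)) (C.ok_of_used ha) ?_
    have h2 := C.ad_le s c
    rw [ha] at h2 hnk
    have h3 : C.ad (σ := σ) (.inr a) = C.str a.1 := rfl
    rw [h3] at h2 hnk
    omega
  have hin : ∀ c, ¬ C.ad (C.inp s c) < q → ∃ a, C.inp s c = .inr a := by
    intro c hnk
    rcases h : C.inp s c with i | a
    · rw [h] at hnk
      exact absurd (show C.ad (.inl i) < q from hq) hnk
    · exact ⟨a, rfl⟩
  by_cases hsk : sk C q s
  · have hkn := sc_spec C hsk
    have hrd : (walk C q r).rd y ((s, e), none) = C.av x (C.inp s (sc C q s)) := by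
      simp [BP.rd, walk, hsk, hy _ _ hkn]
    have hval := C.val_eq' x s e (sc C q s)
    by_cases hb : C.av x (C.inp s (sc C q s)) = e
    · rw [hb, op_short] at hval
      refine Go.one rfl ?_
      rw [hrd, hval, hb]
      simp [walk, hsk]
    · have hb' : C.av x (C.inp s (sc C q s)) = !e := by
        revert hb; cases C.av x (C.inp s (sc C q s)) <;> cases e <;> simp
      rw [hb', op_long] at hval
      have hee : (!e) ≠ e := by cases e <;> simp
      by_cases hk : C.ad (C.inp s (!(sc C q s))) < q
      · refine (Go.one rfl (w := ((s, e), some none)) ?_).trans (Go.one rfl ?_)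
        · rw [hrd, hb']
          simp [walk, hsk, hk]
        · have : (walk C q r).rd y ((s, e), some none) = C.av x (C.inp s (!(sc C q s))) := by
            simp [BP.rd, walk, hy _ _ hk]
          rw [this, hval]
          simp [walk]
      · obtain ⟨a, ho⟩ := hin _ hk
        have hvala : C.val x s e = C.val x a.1 a.2 := by
          rw [hval, ho]
          rfl
        refine (Go.one rfl (w := (a, none)) ?_).trans ((hdn _ a ho hk).trans (Go.one ?_ ?_))
        · rw [hrd, hb']
          rw [ho] at hk
          simp [walk, hsk, ho, hk]
        · exact hne a.1 a.2 _ (C.lt (show C.inp s (!(sc C q s)) = .inr (a.1, a.2) from ho))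
        · have hu := user_eq C ho
          have : (walk C q r).rd y (a, some (some (C.val x a.1 a.2))) = !e := by
            simp [BP.rd, walk, hu, hsk, hy _ _ hkn, hb']
          rw [this, hvala]
          simp [walk, hu, hsk]
  · have hk0 : ¬ C.ad (C.inp s false) < q := fun h => hsk ⟨false, h⟩
    have hk1 : ¬ C.ad (C.inp s true) < q := fun h => hsk ⟨true, h⟩
    have hc : C.Cut s := by
      by_contra hc
      have h1 := C.str_eq s
      have h2 := C.ad_le s false
      have h3 := C.ad_le s true
      have h4 : C.ad (C.inp s false) = C.ad (C.inp s true) := by omega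
      unfold rule at h1
      rw [if_neg hc, if_pos h4] at h1
      omega
    have he : e = live C s := hok hc
    obtain ⟨a0, h0⟩ := hin false hk0
    obtain ⟨a1, h1⟩ := hin true hk1
    have hval := C.val_eq x s e
    rw [h0, h1] at hval
    simp only [Circ.av] at hval
    have hu0 := user_eq C h0
    have hu1 := user_eq C h1
    refine (Go.one rfl (w := (a0, none)) ?_).trans ((hdn _ a0 h0 hk0).trans ?_)
    · simp [walk, hsk, h0]
    · by_cases hv : C.val x a0.1 a0.2 = e
      · rw [hv, op_short] at hval
        refine Go.one ?_ ?_
        · exact hne a0.1 a0.2 _ (C.lt (show C.inp s false = .inr (a0.1, a0.2) from h0))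
        · rw [hval, hv]
          simp [walk, hu0, hsk, he]
      · have hv' : C.val x a0.1 a0.2 = !e := by
          revert hv; cases C.val x a0.1 a0.2 <;> cases e <;> simp
        rw [hv', op_long] at hval
        refine (Go.one (w := (a1, none)) ?_ ?_).trans ((hdn _ a1 h1 hk1).trans (Go.one ?_ ?_))
        · exact hne a0.1 a0.2 _ (C.lt (show C.inp s false = .inr (a0.1, a0.2) from h0))
        · rw [he] at hv
          simp [walk, hu0, hsk, hv, h1]
        · exact hne a1.1 a1.2 _ (C.lt (show C.inp s true = .inr (a1.1, a1.2) from h1))
        · rw [hval]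
          simp [walk, hu1, hsk, he]

theorem walk_ev (C : Circ σ m) (r : Fin m × Bool) (x : σ → Bool)
    (y : σ ⊕ (Fin m × Bool) → Bool)
    (hy : ∀ t c, C.ad (C.inp t c) < C.str r.1 → y (C.inp t c) = C.av x (C.inp t c))
    (hok : C.Ok r) :
    Ev (walk C (C.str r.1) r) y (r, none) (C.val x r.1 r.2) :=
  (walk_go C (C.str r.1) (C.str_pos _) r x y hy _ r rfl (Or.inl rfl) hok rfl).ev
    (Ev.done (by simp [walk]))

end Pool.Agent.TH754.CV
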