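import Pool.Agent.TH754.CV.Circ

/-!
Sizes of the branching programs: small Strahler number, and few inner comparators.
-/

set_option autoImplicit false

namespace Pool.Agent.TH754.CV

variable {σ : Type} {m : ℕ}

theorem card_nd (m : ℕ) : Fintype.card (Nd m) = 8 * m := by
  simp [Nd]
  ring

theorem has_arc (C : Circ σ m) {S d : ℕ} (hS : 3 ≤ S)
    (h : ∀ a : Fin m × Bool, C.Ok a → C.str a.1 ≤ d → Has σ S (fun x => C.val x a.1 a.2))
    (t : Fin m) (c : Bool) (hd : C.ad (C.inp t c) ≤ d) :
    Has σ S (fun x => C.av x (C.inp t c)) := by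
  rcases hi : C.inp t c with i | a
  · exact (has_var i).mono hS
  · rw [hi] at hd
    exact h a (C.ok_of_used hi) hd

open Classical in
/-- The functions which replace the variables of the walk. -/
noncomputable def sub (C : Circ σ m) (q : ℕ) (i : σ ⊕ (Fin m × Bool)) : (σ → Bool) → Bool :=
  if C.ad i < q ∧ ∃ t c, C.inp t c = i then fun x => C.av x i else fun _ => false

theorem sub_eq (C : Circ σ m) (q : ℕ) (t : Fin m) (c : Bool) (h : C.ad (C.inp t c) < q) :
    sub C q (C.inp t c) = fun x => C.av x (C.inp t c) := by
  have h' : C.ad (C.inp t c) < q ∧ ∃ t' c', C.inp t' c' = C.inp t c := ⟨h, t, c, rfl⟩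
  unfold sub
  rw [if_pos h']

theorem main_aux (C : Circ σ m) (q : ℕ) : ∀ a : Fin m × Bool, C.Ok a → C.str a.1 ≤ q →
    Has σ (3 * (8 * m) ^ q) (fun x => C.val x a.1 a.2) := by
  induction q with
  | zero =>
    intro a _ ha
    have := C.str_pos a.1
    omega
  | succ q ih =>
    intro a hok ha
    have hm : 1 ≤ m := by
      have := a.1.2
      omega
    have h1 : 1 ≤ (8 * m) ^ q := Nat.one_le_pow _ _ (by omega)
    have := has_comp (S := 3 * (8 * m) ^ q) (by omega) (walk C (C.str a.1) a) (a, none)
      (sub C (C.str a.1)) (by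
        intro i
        unfold sub
        split
        · rename_i h'
          obtain ⟨h2, t, c, rfl⟩ := h'
          exact has_arc C (by omega) ih t c (by omega)
        · exact (has_const false).mono (by omega)) (f := fun x => C.val x a.1 a.2) (by
        intro x
        refine walk_ev C a x _ (fun t c h => ?_) hok
        rw [sub_eq C _ t c h])
    rw [card_nd] at this
    refine this.mono (le_of_eq ?_)
    rw [pow_succ]
    ring

/-- The size in terms of the Strahler number. -/
theorem has_str (C : Circ σ m) (t : Fin m) (e : Bool) :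
    Has σ (12 * (8 * m) ^ (C.str t)) (fun x => C.val x t e) := by
  have hm : 1 ≤ m := by
    have := t.2
    omega
  have h1 : 1 ≤ (8 * m) ^ (C.str t) := Nat.one_le_pow _ _ (by omega)
  have h2 := has_op (by omega) e
    (has_arc C (by omega) (main_aux C (C.str t)) t false (C.ad_le t false))
    (has_arc C (by omega) (main_aux C (C.str t)) t true (C.ad_le t true))
  have h3 : (fun x => C.val x t e) =
      fun x => op e (C.av x (C.inp t false)) (C.av x (C.inp t true)) := by
    funext x
    exact C.val_eq x t e
  rw [h3]
  refine h2.mono (le_of_eq ?_)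
  ring

theorem str_one (C : Circ σ m) : ∀ (n : ℕ) (t : Fin m), (t : ℕ) = n →
    (∀ s, s ≤ t → ¬ C.Inner s) → C.str t = 1 := by
  intro n
  induction n using Nat.strong_induction_on with
  | _ n ih =>
  intro t ht h
  have key : ∀ c, C.ad (C.inp t c) ≤ 1 := by
    intro c
    rcases hi : C.inp t c with i | a
    · exact Nat.zero_le _
    · have h1 : a.1 < t := C.lt (show C.inp t c = .inr (a.1, a.2) from hi)
      exact le_of_eq (ih a.1 (by rw [← ht]; exact h1) a.1 rfl fun s hs => h s (hs.trans h1.le))
  have h0 := key false
  have h1 := key true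
  by_cases hc : C.Cut t
  · rw [C.str_eq]
    unfold rule
    rw [if_pos hc]
    omega
  · have hs : C.Skew t := by
      by_contra hs
      exact h t le_rfl ⟨hs, hc⟩
    obtain ⟨c, i, hi⟩ := hs
    have h2 : C.ad (C.inp t c) = 0 := by rw [hi]; rfl
    rw [C.str_eq]
    unfold rule
    rw [if_neg hc]
    cases c
    · split <;> omega
    · split <;> omega

/-- The outgoing arcs of the comparator `s` are replaced by constants. -/
def fix (C : Circ σ m) (s : Fin m) (v w : Bool) : Circ (σ ⊕ Bool) m where
  inp t c := match C.inp t c with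
    | .inl i => .inl (.inl i)
    | .inr a => if a.1 = s then .inl (.inr (op a.2 v w)) else .inr a
  lt := by
    intro t c s' e h
    rcases hi : C.inp t c with i | a
    · rw [hi] at h
      simp at h
    · rw [hi] at h
      dsimp only at h
      split at h
      · simp at h
      · rw [Sum.inr.injEq] at h
        rw [h] at hi
        exact C.lt hi
  inj := by
    have key : ∀ (t : Fin m) (c : Bool) (a : Fin m × Bool), (match C.inp t c with
        | .inl i => (.inl (.inl i) : (σ ⊕ Bool) ⊕ (Fin m × Bool))
        | .inr a => if a.1 = s then .inl (.inr (op a.2 v w)) else .inr a) = .inr a →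
        C.inp t c = .inr a := by
      intro t c a h
      rcases hi : C.inp t c with i | b
      · rw [hi] at h
        simp at h
      · rw [hi] at h
        dsimp only at h
        split at h
        · simp at h
        · rw [Sum.inr.injEq] at h
          rw [h]
    intro t t' c c' a h h'
    exact C.inj (key t c a h) (key t' c' a h')

theorem fix_inp (C : Circ σ m) (s : Fin m) (v w : Bool) (t : Fin m) (c : Bool) :
    (fix C s v w).inp t c = match C.inp t c with
    | .inl i => .inl (.inl i)
    | .inr a => if a.1 = s then .inl (.inr (op a.2 v w)) else .inr a := rfl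

theorem fix_inr (C : Circ σ m) {s : Fin m} {v w : Bool} {t : Fin m} {c : Bool}
    {a : Fin m × Bool} (h : (fix C s v w).inp t c = .inr a) : C.inp t c = .inr a ∧ a.1 ≠ s := by
  rw [fix_inp] at h
  rcases hi : C.inp t c with i | b
  · rw [hi] at h
    simp at h
  · rw [hi] at h
    dsimp only at h
    split at h
    · simp at h
    · rename_i hb
      rw [Sum.inr.injEq] at h
      rw [← h]
      exact ⟨rfl, hb⟩

theorem fix_val (C : Circ σ m) (s : Fin m) (v w : Bool) (x : σ → Bool)
    (hv : C.av x (C.inp s false) = v) (hw : C.av x (C.inp s true) = w) :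
    ∀ (n : ℕ) (t : Fin m), (t : ℕ) = n → ∀ e,
      (fix C s v w).val (Sum.elim x id) t e = C.val x t e := by
  intro n
  induction n using Nat.strong_induction_on with
  | _ n ih =>
  intro t ht e
  have key : ∀ c, (fix C s v w).av (Sum.elim x id) ((fix C s v w).inp t c) =
      C.av x (C.inp t c) := by
    intro c
    rw [fix_inp]
    rcases hi : C.inp t c with i | a
    · rfl
    · dsimp only
      have h1 : a.1 < t := C.lt (show C.inp t c = .inr (a.1, a.2) from hi)
      split
      · rename_i ha
        simp only [Circ.av, Sum.elim_inr, id]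
        rw [C.val_eq, ha, hv, hw]
      · exact ih a.1 (by rw [← ht]; exact h1) a.1 rfl a.2
  rw [Circ.val_eq, Circ.val_eq, key, key]

theorem fix_inner (C : Circ σ m) {s : Fin m} {v w : Bool} {t : Fin m}
    (h : (fix C s v w).Inner t) : C.Inner t ∧ t ≠ s := by
  refine ⟨⟨?_, ?_⟩, ?_⟩
  · rintro ⟨c, i, hi⟩
    refine h.1 ⟨c, .inl i, ?_⟩
    rw [fix_inp, hi]
  · rintro ⟨e, he⟩
    refine h.2 ⟨e, fun t' c h' => ?_⟩
    exact he t' c (fix_inr C h').1
  · rintro rfl
    exact h.2 ⟨false, fun t' c h' => (fix_inr C h').2 rfl⟩

/-- Constants need not be read. -/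
theorem has_elim {S : ℕ} {f : (σ ⊕ Bool → Bool) → Bool} (h : Has (σ ⊕ Bool) S f) :
    Has σ S (fun x => f (Sum.elim x id)) := by
  obtain ⟨P, v0, hP⟩ := h
  let P' : BP σ (Fin S) := ⟨P.out, fun v => match P.qry v with
    | some (.inl i) => some i
    | _ => none, fun v b => match P.qry v with
    | some (.inr b') => P.nxt v b'
    | _ => P.nxt v b⟩
  refine ⟨P', v0, fun x => ?_⟩
  have key : ∀ v b, Ev P (Sum.elim x id) v b → Ev P' x v b := by
    intro v b hv
    induction hv with
    | done h => exact Ev.done h
    | @step v b h h' ih =>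
      refine Ev.step h ?_
      have : P'.nxt v (P'.rd x v) = P.nxt v (P.rd (Sum.elim x id) v) := by
        rcases hq : P.qry v with _ | (i | b')
        · simp [P', BP.rd, hq]
        · simp [P', BP.rd, hq]
        · simp [P', BP.rd, hq]
      rw [this]
      exact ih
  exact key _ _ (hP _)

/-- A function which is known once two other bits are known. -/
theorem has_two {S : ℕ} (hS : 0 < S) {f b0 b1 : (σ → Bool) → Bool}
    {g : Bool → Bool → (σ → Bool) → Bool} (h0 : Has σ S b0) (h1 : Has σ S b1)
    (hg : ∀ v w, Has σ S (g v w)) (h : ∀ x, g (b0 x) (b1 x) x = f x) : Has σ (9 * S) f := by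
  have := has_comp (σ := σ) (τ := Bool ⊕ (Bool × Bool))
    (V := (Unit ⊕ Bool) ⊕ ((Bool × Bool) ⊕ Bool)) hS
    ⟨fun v => match v with
      | .inr (.inr b) => some b
      | _ => none, fun v => match v with
      | .inl (.inl _) => some (.inl false)
      | .inl (.inr _) => some (.inl true)
      | .inr (.inl p) => some (.inr p)
      | .inr (.inr _) => none, fun v b => match v with
      | .inl (.inl _) => .inl (.inr b)
      | .inl (.inr b0) => .inr (.inl (b0, b))
      | .inr (.inl _) => .inr (.inr b)
      | .inr (.inr b') => .inr (.inr b')⟩ (.inl (.inl ()))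
    (fun c => match c with
      | .inl c => if c then b1 else b0
      | .inr p => g p.1 p.2)
    (by
      rintro (c | p)
      · cases c <;> simpa
      · exact hg _ _)
    (f := f) (by
      intro x
      refine Ev.step rfl ?_
      simp only [BP.rd, Option.map_some, Option.getD_some]
      refine Ev.step rfl ?_
      simp only [BP.rd, Option.map_some, Option.getD_some]
      refine Ev.step rfl ?_
      simp only [BP.rd, Option.map_some, Option.getD_some]
      refine Ev.done ?_
      simp [h])
  simpa using this

theorem has_few_aux (k : ℕ) : ∀ (σ : Type) (m : ℕ) (C : Circ σ m) (I : Finset (Fin m)),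
    (∀ s, C.Inner s → s ∈ I) → I.card ≤ k → ∀ (t : Fin m) (e : Bool),
    Has σ (96 * m * 9 ^ k) (fun x => C.val x t e) := by
  induction k with
  | zero =>
    intro σ m C I hI hk t e
    have h0 : ∀ s, ¬ C.Inner s := by
      intro s hs
      have := Finset.card_pos.2 ⟨s, hI s hs⟩
      omega
    have h1 := has_str C t e
    rw [str_one C t t rfl fun s _ => h0 s] at h1
    refine h1.mono (le_of_eq ?_)
    ring
  | succ k ih =>
    intro σ m C I hI hk t e
    have hm : 1 ≤ m := by
      have := t.2
      omega
    have h9 : 1 ≤ 9 ^ k := Nat.one_le_pow _ _ (by omega)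
    have h96 : 96 * m ≤ 96 * m * 9 ^ k := by nlinarith
    by_cases h : ∃ s, C.Inner s
    · classical
      obtain ⟨s, hs, hmin⟩ : ∃ s, C.Inner s ∧ ∀ s', C.Inner s' → s ≤ s' := by
        have hne : (Finset.univ.filter fun s => C.Inner s).Nonempty := by
          obtain ⟨s, hs⟩ := h
          exact ⟨s, by simpa using hs⟩
        refine ⟨(Finset.univ.filter fun s => C.Inner s).min' hne, ?_, ?_⟩
        · simpa using Finset.min'_mem _ hne
        · intro s' hs'
          exact Finset.min'_le _ _ (by simpa using hs')
      have hb : ∀ c, Has σ (96 * m * 9 ^ k) (fun x => C.av x (C.inp s c)) := by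
        intro c
        refine (has_arc C (d := 1) (S := 3 * (8 * m) ^ 1) (by rw [pow_one]; omega) (main_aux C 1)
          s c ?_).mono (by rw [pow_one]; omega)
        rcases hi : C.inp s c with i | a
        · exact Nat.zero_le _
        · have h1 : a.1 < s := C.lt (show C.inp s c = .inr (a.1, a.2) from hi)
          refine le_of_eq (str_one C a.1 a.1 rfl fun s' hs' hin => ?_)
          exact absurd (lt_of_le_of_lt hs' h1) (not_lt.2 (hmin s' hin))
      have h2 := has_two (σ := σ) (S := 96 * m * 9 ^ k) (by nlinarith)
        (f := fun x => C.val x t e) (g := fun v w x => (fix C s v w).val (Sum.elim x id) t e)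
        (hb false) (hb true) (fun v w => has_elim (ih _ m (fix C s v w) (I.erase s) (by
            intro s' hs'
            obtain ⟨h3, h4⟩ := fix_inner C hs'
            exact Finset.mem_erase.2 ⟨h4, hI s' h3⟩) (by
            rw [Finset.card_erase_of_mem (hI s hs)]
            omega) t e)) (fun x => fix_val C s _ _ x rfl rfl _ t rfl e)
      refine h2.mono (le_of_eq ?_)
      rw [pow_succ]
      ring
    · push Not at h
      have h1 := has_str C t e
      rw [str_one C t t rfl fun s _ => h s] at h1
      refine h1.mono ?_
      have h5 : 12 * (8 * m) ^ 1 = 96 * m := by ring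
      rw [h5]
      exact h96.trans (Nat.mul_le_mul_left _ (Nat.pow_le_pow_right (by omega) (by omega)))

end Pool.Agent.TH754.CV
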