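import Pool.Agent.TH754.CV.Bp

/-!
Unbounded fan-in circuits, and the simulation of branching programs by them.
-/

set_option autoImplicit false

namespace Pool.Agent.TH754.CV

variable {σ τ V : Type}

/-- Boolean functions of the variables `σ`. -/
abbrev Fn (σ : Type) := (σ → Bool) → Bool

/-- `g` is an unbounded fan-in OR of functions from `A` and of negations of functions from `A`, or
the negation of such an OR. -/
def Gate (A : Finset (Fn σ)) (g : Fn σ) : Prop :=
  ∃ (T : Set (Fn σ × Bool)) (b : Bool), (∀ p ∈ T, p.1 ∈ A) ∧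
    ∀ x, g x = b ↔ ∃ p ∈ T, p.1 x = p.2

/-- `Net n A`: there is a Boolean circuit of depth at most `n` with unbounded fan-in whose nodes
(variables, and gates as in `Gate`) compute precisely the functions in `A`. -/
inductive Net : ℕ → Finset (Fn σ) → Prop
  | base {A : Finset (Fn σ)} (h : ∀ g ∈ A, ∃ i, g = fun x => x i) : Net 0 A
  | step {n : ℕ} {A B : Finset (Fn σ)} (h : Net n A) (hAB : A ⊆ B)
      (hB : ∀ g ∈ B, g ∈ A ∨ Gate A g) : Net (n + 1) B

theorem Gate.mono {A B : Finset (Fn σ)} {g : Fn σ} (h : Gate A g) (hAB : A ⊆ B) : Gate B g := by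
  obtain ⟨T, b, h1, h2⟩ := h
  exact ⟨T, b, fun p hp => hAB (h1 p hp), h2⟩

theorem Net.succ {n : ℕ} {A : Finset (Fn σ)} (h : Net n A) : Net (n + 1) A :=
  Net.step h (Finset.Subset.refl _) fun _ hg => Or.inl hg

theorem Net.le {n n' : ℕ} {A : Finset (Fn σ)} (h : Net n A) (hn : n ≤ n') : Net n' A := by
  induction n', hn using Nat.le_induction with
  | base => exact h
  | succ n' _ ih => exact ih.succ

open Classical in
theorem Net.add {n : ℕ} {A : Finset (Fn σ)} (h : Net n A) (B : Finset (Fn σ))
    (hB : ∀ g ∈ B, Gate A g) : Net (n + 1) (A ∪ B) := by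
  refine Net.step h Finset.subset_union_left fun g hg => ?_
  rcases Finset.mem_union.1 hg with h1 | h1
  · exact Or.inl h1
  · exact Or.inr (hB g h1)

open Classical in
theorem Net.union {n : ℕ} : ∀ {A B : Finset (Fn σ)}, Net n A → Net n B → Net n (A ∪ B) := by
  induction n with
  | zero =>
    intro A B hA hB
    cases hA with
    | base h1 =>
      cases hB with
      | base h2 =>
        refine Net.base fun g hg => ?_
        rcases Finset.mem_union.1 hg with h | h
        · exact h1 g h
        · exact h2 g h
  | succ n ih =>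
    intro A B hA hB
    cases hA with
    | @step _ A' _ h1 h2 h3 =>
      cases hB with
      | @step _ B' _ h4 h5 h6 =>
        refine Net.step (ih h1 h4) (Finset.union_subset_union h2 h5) fun g hg => ?_
        rcases Finset.mem_union.1 hg with h | h
        · rcases h3 g h with h7 | h7
          · exact Or.inl (Finset.mem_union_left _ h7)
          · exact Or.inr (h7.mono Finset.subset_union_left)
        · rcases h6 g h with h7 | h7
          · exact Or.inl (Finset.mem_union_right _ h7)
          · exact Or.inr (h7.mono Finset.subset_union_right)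

theorem gate_const (A : Finset (Fn σ)) (c : Bool) : Gate A (fun _ => c) := by
  refine ⟨∅, !c, by simp, fun x => ?_⟩
  cases c <;> simp

theorem gate_lit {A : Finset (Fn σ)} {y : Fn σ} (hy : y ∈ A) (h : Bool → Bool) :
    Gate A (fun x => h (y x)) := by
  by_cases hc : h true = h false
  · have : (fun x => h (y x)) = fun _ => h false := by
      funext x
      cases y x
      · rfl
      · exact hc
    rw [this]
    exact gate_const _ _
  · refine ⟨{(y, h true)}, true, by simpa using hy, fun x => ?_⟩
    simp only [Set.mem_singleton_iff, exists_eq_left]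
    revert hc
    cases hx : y x <;> cases h1 : h true <;> cases h2 : h false <;> simp

theorem gate_op {A : Finset (Fn σ)} {f g : Fn σ} (hf : f ∈ A) (hg : g ∈ A) (e : Bool) :
    Gate A (fun x => op e (f x) (g x)) := by
  refine ⟨{(f, e), (g, e)}, e, ?_, fun x => ?_⟩
  · rintro p (rfl | rfl)
    · exact hf
    · exact hg
  · simp only [Set.mem_insert_iff, Set.mem_singleton_iff, exists_eq_or_imp, exists_eq_left]
    cases e <;> cases f x <;> cases g x <;> simp [op]

/-- A fixed point is reached after as many steps as there are elements. -/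
theorem iter_fix [Fintype V] (f : V → V) (v : V) (n : ℕ) (h : f (f^[n] v) = f^[n] v) {N : ℕ}
    (hN : Fintype.card V ≤ N) : f^[N] v = f^[n] v := by
  classical
  have hex : ∃ n, f (f^[n] v) = f^[n] v := ⟨n, h⟩
  obtain ⟨n0, h0, hmin⟩ : ∃ n0, f (f^[n0] v) = f^[n0] v ∧
      ∀ k, f (f^[k] v) = f^[k] v → n0 ≤ k :=
    ⟨Nat.find hex, Nat.find_spec hex, fun k hk => Nat.find_min' hex hk⟩
  have hinj : Function.Injective fun i : Fin (n0 + 1) => f^[i] v := by
    have key : ∀ i j : ℕ, i < j → j ≤ n0 → f^[i] v ≠ f^[j] v := by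
      intro i j hij hj heq
      have h1 : f^[(n0 - j) + i] v = f^[n0] v := by
        rw [Function.iterate_add_apply, heq, ← Function.iterate_add_apply]
        congr 2
        omega
      have h2 := hmin ((n0 - j) + i) (by rw [h1]; exact h0)
      omega
    intro i j hij
    rcases lt_trichotomy (i : ℕ) j with h1 | h1 | h1
    · exact absurd hij (key i j h1 (by omega))
    · exact Fin.ext h1
    · exact absurd hij.symm (key j i h1 (by omega))
  have hcard := Fintype.card_le_of_injective _ hinj
  rw [Fintype.card_fin] at hcard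
  have hfix : ∀ k, n0 ≤ k → f^[k] v = f^[n0] v := by
    intro k hk
    obtain ⟨l, rfl⟩ := Nat.exists_eq_add_of_le hk
    rw [Nat.add_comm, Function.iterate_add_apply]
    exact Function.iterate_fixed h0 l
  rw [hfix N (by omega), hfix n (hmin n h)]

/-- One step of a branching program; it stays at output nodes. -/
def stp (P : BP τ V) (y : τ → Bool) (v : V) : V :=
  match P.out v with
  | some _ => v
  | none => P.nxt v (P.rd y v)

theorem stp_out {P : BP τ V} {y : τ → Bool} {v : V} {b : Bool} (h : P.out v = some b) :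
    stp P y v = v := by
  unfold stp
  rw [h]

theorem ev_iter {P : BP τ V} {y : τ → Bool} {v : V} {b : Bool} (h : Ev P y v b) :
    ∃ n, P.out ((stp P y)^[n] v) = some b := by
  induction h with
  | done h => exact ⟨0, h⟩
  | @step v b h _ ih =>
    obtain ⟨n, hn⟩ := ih
    refine ⟨n + 1, ?_⟩
    rw [Function.iterate_succ_apply]
    have : stp P y v = P.nxt v (P.rd y v) := by
      unfold stp
      rw [h]
    rw [this]
    exact hn

theorem ev_card [Fintype V] {P : BP τ V} {y : τ → Bool} {v : V} {b : Bool} (h : Ev P y v b)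
    {N : ℕ} (hN : Fintype.card V ≤ N) : P.out ((stp P y)^[N] v) = some b := by
  obtain ⟨n, hn⟩ := ev_iter h
  rw [iter_fix (stp P y) v n (stp_out hn) hN]
  exact hn

open Classical in
/-- After `2 ^ k` steps the program goes from `v` to `w`. -/
noncomputable def R (P : BP τ V) (y : τ → Fn σ) (k : ℕ) (v w : V) : Fn σ :=
  fun x => decide ((stp P fun i => y i x)^[2 ^ k] v = w)

theorem gate_zero (P : BP τ V) (y : τ → Fn σ) {A : Finset (Fn σ)} (v w : V)
    (hy : ∀ i, P.qry v = some i → y i ∈ A) : Gate A (R P y 0 v w) := by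
  classical
  have h0 : R P y 0 v w = fun x => decide (stp P (fun i => y i x) v = w) := by
    funext x
    simp [R]
  rw [h0]
  rcases ho : P.out v with _ | b
  · rcases hq : P.qry v with _ | i
    · have : (fun x => decide (stp P (fun i => y i x) v = w)) =
          fun _ => decide (P.nxt v false = w) := by
        funext x
        simp [stp, ho, BP.rd, hq]
      rw [this]
      exact gate_const _ _
    · have : (fun x => decide (stp P (fun i => y i x) v = w)) =
          fun x => (fun b => decide (P.nxt v b = w)) (y i x) := by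
        funext x
        simp [stp, ho, BP.rd, hq]
      rw [this]
      exact gate_lit (hy i hq) (fun b => decide (P.nxt v b = w))
  · have : (fun x => decide (stp P (fun i => y i x) v = w)) = fun _ => decide (v = w) := by
      funext x
      simp [stp, ho]
    rw [this]
    exact gate_const _ _

theorem gate_succ (P : BP τ V) (y : τ → Fn σ) {A : Finset (Fn σ)} (k : ℕ) (v w : V)
    (hA : ∀ u, (fun x => op false (R P y k v u x) (R P y k u w x)) ∈ A) :
    Gate A (R P y (k + 1) v w) := by
  refine ⟨{p | ∃ u, p = ((fun x => op false (R P y k v u x) (R P y k u w x)), true)}, true,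
    ?_, fun x => ?_⟩
  · rintro p ⟨u, rfl⟩
    exact hA u
  · constructor
    · intro h
      have h1 : (stp P fun i => y i x)^[2 ^ (k + 1)] v = w := by simpa [R] using h
      refine ⟨_, ⟨(stp P fun i => y i x)^[2 ^ k] v, rfl⟩, ?_⟩
      rw [pow_succ, mul_two, Function.iterate_add_apply] at h1
      simp [op, R, h1]
    · rintro ⟨p, ⟨u, rfl⟩, h⟩
      have h1 : (stp P fun i => y i x)^[2 ^ k] v = u ∧ (stp P fun i => y i x)^[2 ^ k] u = w := by
        simpa [op, R] using h
      have h2 : (stp P fun i => y i x)^[2 ^ (k + 1)] v = w := by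
        rw [pow_succ, mul_two, Function.iterate_add_apply, h1.1, h1.2]
      simpa [R] using h2

open Classical in
theorem net_R [Fintype V] (P : BP τ V) (y : τ → Fn σ) {n : ℕ} {A : Finset (Fn σ)}
    (hA : Net n A) (hy : ∀ v i, P.qry v = some i → y i ∈ A) (k : ℕ) :
    ∃ B : Finset (Fn σ), A ⊆ B ∧ Net (n + 1 + 2 * k) B ∧ (∀ v w, R P y k v w ∈ B) ∧
      B.card ≤ A.card + (k + 1) * (Fintype.card V ^ 2 + Fintype.card V ^ 3) := by
  induction k with
  | zero =>
    refine ⟨A ∪ Finset.univ.image (fun p : V × V => R P y 0 p.1 p.2),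
      Finset.subset_union_left, ?_, ?_, ?_⟩
    · refine hA.add _ fun g hg => ?_
      obtain ⟨p, -, rfl⟩ := Finset.mem_image.1 hg
      exact gate_zero P y p.1 p.2 (hy p.1)
    · intro v w
      exact Finset.mem_union_right _ (Finset.mem_image.2 ⟨(v, w), Finset.mem_univ _, rfl⟩)
    · refine (Finset.card_union_le _ _).trans ?_
      have h1 : (Finset.univ.image (fun p : V × V => R P y 0 p.1 p.2)).card ≤
          Fintype.card V ^ 2 := by
        refine Finset.card_image_le.trans ?_
        rw [Finset.card_univ, Fintype.card_prod, sq]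
      rw [zero_add, one_mul]
      exact Nat.add_le_add_left (h1.trans (Nat.le_add_right _ _)) _
  | succ k ih =>
    obtain ⟨B, h1, h2, h3, h4⟩ := ih
    let A1 : Finset (Fn σ) := Finset.univ.image (fun p : V × V × V =>
      fun x => op false (R P y k p.1 p.2.1 x) (R P y k p.2.1 p.2.2 x))
    let A2 : Finset (Fn σ) := Finset.univ.image (fun p : V × V => R P y (k + 1) p.1 p.2)
    have hA1 : A1.card ≤ Fintype.card V ^ 3 := by
      refine Finset.card_image_le.trans ?_
      rw [Finset.card_univ, Fintype.card_prod, Fintype.card_prod]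
      exact le_of_eq (by ring)
    have hA2 : A2.card ≤ Fintype.card V ^ 2 := by
      refine Finset.card_image_le.trans ?_
      rw [Finset.card_univ, Fintype.card_prod, sq]
    refine ⟨(B ∪ A1) ∪ A2, ?_, ?_, ?_, ?_⟩
    · exact h1.trans (Finset.subset_union_left.trans Finset.subset_union_left)
    · have : n + 1 + 2 * (k + 1) = n + 1 + 2 * k + 1 + 1 := by ring
      rw [this]
      refine (h2.add A1 fun g hg => ?_).add A2 fun g hg => ?_
      · obtain ⟨p, -, rfl⟩ := Finset.mem_image.1 hg
        exact gate_op (h3 _ _) (h3 _ _) false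
      · obtain ⟨p, -, rfl⟩ := Finset.mem_image.1 hg
        refine gate_succ P y k p.1 p.2 fun u => ?_
        exact Finset.mem_union_right _
          (Finset.mem_image.2 ⟨(p.1, u, p.2), Finset.mem_univ _, rfl⟩)
    · intro v w
      exact Finset.mem_union_right _ (Finset.mem_image.2 ⟨(v, w), Finset.mem_univ _, rfl⟩)
    · have h5 := Finset.card_union_le (B ∪ A1) A2
      have h6 := Finset.card_union_le B A1
      nlinarith

open Classical in
theorem net_bp [Fintype V] (P : BP τ V) (v0 : V) (y : τ → Fn σ) {n : ℕ} {A : Finset (Fn σ)}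
    (hA : Net n A) (hy : ∀ v i, P.qry v = some i → y i ∈ A) {f : Fn σ}
    (hf : ∀ x, Ev P (fun i => y i x) v0 (f x)) {K : ℕ} (hK : Fintype.card V ≤ 2 ^ K) :
    ∃ B : Finset (Fn σ), A ⊆ B ∧ Net (n + 2 * K + 2) B ∧ f ∈ B ∧
      B.card ≤ A.card + ((K + 1) * (Fintype.card V ^ 2 + Fintype.card V ^ 3) + 1) := by
  obtain ⟨B, h1, h2, h3, h4⟩ := net_R P y hA hy K
  refine ⟨B ∪ {f}, h1.trans Finset.subset_union_left, ?_, ?_, ?_⟩
  · have : n + 2 * K + 2 = n + 1 + 2 * K + 1 := by ring
    rw [this]
    refine h2.add _ fun g hg => ?_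
    rw [Finset.mem_singleton.1 hg]
    refine ⟨{p | ∃ w, P.out w = some true ∧ p = (R P y K v0 w, true)}, true, ?_, fun x => ?_⟩
    · rintro p ⟨w, -, rfl⟩
      exact h3 _ _
    · have h5 := ev_card (hf x) hK
      constructor
      · intro h
        rw [h] at h5
        exact ⟨_, ⟨_, h5, rfl⟩, by simp [R]⟩
      · rintro ⟨p, ⟨w, hw, rfl⟩, h⟩
        have h6 : (stp P fun i => y i x)^[2 ^ K] v0 = w := by simpa [R] using h
        rw [h6, hw] at h5
        simpa using h5.symm
  · exact Finset.mem_union_right _ (Finset.mem_singleton_self f)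
  · have h5 := Finset.card_union_le B {f}
    rw [Finset.card_singleton] at h5
    omega

open Classical in
/-- Several functions at once. -/
theorem net_family {ι : Type} {n n' : ℕ} {A : Finset (Fn σ)} (hA : Net n A) (hn : n ≤ n')
    {c : ℕ} (f : ι → Fn σ) (s : Finset ι)
    (h : ∀ i ∈ s, ∃ B : Finset (Fn σ), A ⊆ B ∧ Net n' B ∧ f i ∈ B ∧ B.card ≤ A.card + c) :
    ∃ B : Finset (Fn σ), A ⊆ B ∧ Net n' B ∧ (∀ i ∈ s, f i ∈ B) ∧
      B.card ≤ A.card + s.card * c := by
  induction s using Finset.induction_on with
  | empty => exact ⟨A, Finset.Subset.refl _, hA.le hn, by simp, by simp⟩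
  | insert i s hi ih =>
    obtain ⟨B, h1, h2, h3, h4⟩ := ih fun j hj => h j (Finset.mem_insert_of_mem hj)
    obtain ⟨B', h5, h6, h7, h8⟩ := h i (Finset.mem_insert_self i s)
    refine ⟨B ∪ B', h1.trans Finset.subset_union_left, h2.union h6, ?_, ?_⟩
    · intro j hj
      rcases Finset.mem_insert.1 hj with rfl | hj
      · exact Finset.mem_union_right _ h7
      · exact Finset.mem_union_left _ (h3 j hj)
    · have h9 : B ∪ B' ⊆ B ∪ (B' \ A) := by
        intro g hg
        rcases Finset.mem_union.1 hg with h | h
        · exact Finset.mem_union_left _ h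
        · by_cases hgA : g ∈ A
          · exact Finset.mem_union_left _ (h1 hgA)
          · exact Finset.mem_union_right _ (Finset.mem_sdiff.2 ⟨h, hgA⟩)
      have h10 := (Finset.card_le_card h9).trans (Finset.card_union_le _ _)
      have h11 : (B' \ A).card ≤ c := by
        rw [Finset.card_sdiff_of_subset h5]
        omega
      rw [Finset.card_insert_of_notMem hi]
      nlinarith

end Pool.Agent.TH754.CV
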