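import Pool.Agent.TH754.CV.Main
import Pool.Agent.TH754.CV.Net

/-!
Comparator circuits of small Strahler number are evaluated by shallow circuits.
-/

set_option autoImplicit false

namespace Pool.Agent.TH754.CV

variable {σ : Type} {m : ℕ}

/-- The bound for the number of new gates in one evaluation of an arc. -/
def cost (m K : ℕ) : ℕ := (K + 1) * ((8 * m) ^ 2 + (8 * m) ^ 3) + 1

open Classical in
theorem net_levels (C : Circ σ m) (K : ℕ) (hK : 8 * m ≤ 2 ^ K) (q : ℕ) :
    ∃ B : Finset (Fn σ), Net (q * (2 * K + 2) + 1) B ∧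
      (∀ t c j, C.inp t c = .inl j → (fun x : σ → Bool => x j) ∈ B) ∧
      (fun _ : σ → Bool => false) ∈ B ∧
      (∀ a : Fin m × Bool, C.Ok a → C.str a.1 ≤ q → (fun x => C.val x a.1 a.2) ∈ B) ∧
      B.card ≤ 1 + 2 * m + q * (2 * m * cost m K) := by
  induction q with
  | zero =>
    let L : Finset (Fn σ) := Finset.univ.image (fun p : Fin m × Bool =>
      match C.inp p.1 p.2 with
      | .inl j => fun x : σ → Bool => x j
      | .inr _ => fun x => C.val x p.1 p.2)
    let L' : Finset (Fn σ) := L.filter fun g => ∃ i, g = fun x => x i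
    have hL : L'.card ≤ 2 * m := by
      refine (Finset.card_filter_le _ _).trans (Finset.card_image_le.trans ?_)
      simp
      omega
    have hsrc : ∀ t c j, C.inp t c = .inl j → (fun x : σ → Bool => x j) ∈ L' := by
      intro t c j h
      refine Finset.mem_filter.2 ⟨Finset.mem_image.2 ⟨(t, c), Finset.mem_univ _, ?_⟩, j, rfl⟩
      simp only [h]
    have hbase : Net 0 L' := Net.base fun g hg => (Finset.mem_filter.1 hg).2
    have hA : Net 1 (L' ∪ {fun _ => false}) := hbase.add _ fun g hg => by
      rw [Finset.mem_singleton.1 hg]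
      exact gate_const _ _
    have hAc := Finset.card_union_le L' {fun _ : σ → Bool => false}
    rw [Finset.card_singleton] at hAc
    refine ⟨L' ∪ {fun _ => false}, hA.le (by omega),
      fun t c j h => Finset.mem_union_left _ (hsrc t c j h),
      Finset.mem_union_right _ (Finset.mem_singleton_self _), ?_, by omega⟩
    intro a _ ha
    have := C.str_pos a.1
    omega
  | succ q ih =>
    obtain ⟨A, h1, h2, h3, h4, h5⟩ := ih
    have hav : ∀ t c, C.ad (C.inp t c) ≤ q → (fun x => C.av x (C.inp t c)) ∈ A := by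
      intro t c hd
      rcases hi : C.inp t c with i | a
      · exact h2 t c i hi
      · rw [hi] at hd
        exact h4 a (C.ok_of_used hi) hd
    obtain ⟨B, h6, h7, h8, h9⟩ := net_family (ι := Fin m × Bool) h1
      (n' := q * (2 * K + 2) + 1 + 2 * K + 2) (by omega) (c := cost m K)
      (fun a x => C.val x a.1 a.2)
      (Finset.univ.filter fun a => C.Ok a ∧ C.str a.1 ≤ q + 1) (by
        intro a ha
        obtain ⟨-, hok, hd⟩ := Finset.mem_filter.1 ha
        have := net_bp (walk C (C.str a.1) a) (a, none) (sub C (C.str a.1)) h1 (by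
            intro v i hi
            obtain ⟨t, c, rfl⟩ := walk_qry C _ a v i hi
            unfold sub
            split
            · rename_i h'
              exact hav t c (by omega)
            · exact h3) (f := fun x => C.val x a.1 a.2) (by
            intro x
            refine walk_ev C a x _ (fun t c h => ?_) hok
            rw [sub_eq C _ t c h]) (K := K) (by rw [card_nd]; exact hK)
        rw [card_nd] at this
        exact this)
    refine ⟨B, h7.le (le_of_eq (by ring)), fun t c j h => h6 (h2 t c j h), h6 h3,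
      fun a hok hd => h8 a (by simp [hok, hd]), h9.trans ?_⟩
    have h10 : (Finset.univ.filter fun a : Fin m × Bool => C.Ok a ∧ C.str a.1 ≤ q + 1).card *
        cost m K ≤ 2 * m * cost m K := by
      refine Nat.mul_le_mul_right _ ((Finset.card_le_univ _).trans ?_)
      simp
      omega
    have h11 : (q + 1) * (2 * m * cost m K) = q * (2 * m * cost m K) + 2 * m * cost m K := by
      ring
    omega

/-- The shallow circuits. -/
theorem net_str (C : Circ σ m) (t : Fin m) (e : Bool) (K : ℕ) (hK : 8 * m ≤ 2 ^ K) :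
    ∃ B : Finset (Fn σ), Net (C.str t * (2 * K + 2) + 2) B ∧ (fun x => C.val x t e) ∈ B ∧
      B.card ≤ 2 + 2 * m + C.str t * (2 * m * cost m K) := by
  classical
  obtain ⟨B, h1, h2, h3, h4, h5⟩ := net_levels C K hK (C.str t)
  have hav : ∀ c, (fun x => C.av x (C.inp t c)) ∈ B := by
    intro c
    have hd := C.ad_le t c
    rcases hi : C.inp t c with i | a
    · exact h2 t c i hi
    · rw [hi] at hd
      exact h4 a (C.ok_of_used hi) hd
  refine ⟨B ∪ {fun x => C.val x t e}, h1.add _ fun g hg => ?_,
    Finset.mem_union_right _ (Finset.mem_singleton_self _), ?_⟩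
  · rw [Finset.mem_singleton.1 hg]
    have h6 := gate_op (hav false) (hav true) e
    simpa only [C.val_eq] using h6
  · have h6 := Finset.card_union_le B {fun x => C.val x t e}
    rw [Finset.card_singleton] at h6
    omega

theorem size_le (m s : ℕ) (hm : 1 ≤ m) (hs : 1 ≤ s) :
    2 + 2 * m + s * (2 * m * cost m (Nat.clog 2 (8 * m))) ≤ 16384 * s * m ^ 5 := by
  have hK : Nat.clog 2 (8 * m) ≤ 8 * m :=
    Nat.clog_le_of_le_pow (Nat.lt_two_pow_self).le
  have h1 : cost m (Nat.clog 2 (8 * m)) ≤ (9 * m) * (576 * m ^ 3) + 1 := by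
    unfold cost
    refine Nat.add_le_add_right (Nat.mul_le_mul (by omega) ?_) 1
    have : m ^ 2 ≤ m ^ 3 := Nat.pow_le_pow_right hm (by omega)
    nlinarith
  have h2 : m ≤ m ^ 5 := by
    calc m = m ^ 1 := (pow_one m).symm
      _ ≤ m ^ 5 := Nat.pow_le_pow_right hm (by omega)
  have h3 : 1 ≤ m ^ 5 := Nat.one_le_pow _ _ hm
  have h4 : 2 * m * cost m (Nat.clog 2 (8 * m)) ≤ 10370 * m ^ 5 := by
    calc 2 * m * cost m (Nat.clog 2 (8 * m)) ≤ 2 * m * ((9 * m) * (576 * m ^ 3) + 1) :=
          Nat.mul_le_mul_left _ h1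
      _ = 10368 * m ^ 5 + 2 * m := by ring
      _ ≤ 10370 * m ^ 5 := by omega
  calc 2 + 2 * m + s * (2 * m * cost m (Nat.clog 2 (8 * m))) ≤
        4 * m ^ 5 + s * (10370 * m ^ 5) := Nat.add_le_add (by omega) (Nat.mul_le_mul_left _ h4)
    _ ≤ s * (4 * m ^ 5) + s * (10370 * m ^ 5) :=
        Nat.add_le_add_right (Nat.le_mul_of_pos_left _ hs) _
    _ = 10374 * s * m ^ 5 := by ring
    _ ≤ 16384 * s * m ^ 5 := by
        refine Nat.mul_le_mul_right _ (Nat.mul_le_mul_right _ (by omega))

/-- The Strahler number and the number of inner comparators on a path. -/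
theorem str_le (C : Circ σ m) (D : Fin m → ℕ) (hD : ∀ (s : Fin m) (c : Bool) (a : Fin m × Bool),
    C.inp s c = .inr a → D a.1 ≤ D s ∧ (C.Inner s → D a.1 < D s)) :
    ∀ (n : ℕ) (t : Fin m), (t : ℕ) = n → C.str t ≤ D t + 1 := by
  intro n
  induction n using Nat.strong_induction_on with
  | _ n ih =>
  intro t ht
  have key : ∀ c, C.ad (C.inp t c) ≤ D t + 1 ∧ (C.Inner t → C.ad (C.inp t c) ≤ D t) := by
    intro c
    rcases hi : C.inp t c with i | a
    · exact ⟨Nat.zero_le _, fun _ => Nat.zero_le _⟩
    · have h1 : a.1 < t := C.lt (show C.inp t c = .inr (a.1, a.2) from hi)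
      have h2 := ih a.1 (by rw [← ht]; exact h1) a.1 rfl
      have h3 := hD t c a hi
      have h4 : C.ad (σ := σ) (.inr a) = C.str a.1 := rfl
      rw [h4]
      refine ⟨by omega, fun h => ?_⟩
      have := h3.2 h
      omega
  have h0 := key false
  have h1 := key true
  rw [C.str_eq]
  unfold rule
  split
  · omega
  · rename_i hc
    split
    · rename_i hp
      by_cases hs : C.Skew t
      · obtain ⟨c, i, hi⟩ := hs
        have h2 : C.ad (C.inp t c) = 0 := by rw [hi]; rfl
        cases c <;> omega
      · have := h0.2 ⟨hs, hc⟩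
        omega
    · omega

end Pool.Agent.TH754.CV
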